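import Pool.Agent.H11Z.PolyIdx.Main

set_option autoImplicit false

namespace Pool.Agent.Results.MP_046d9d_an.ARealRange

open Pool.Agent.H11Z.PolyIdx

universe u

/-- For every `k ≥ 2` the set of all values of the `k`-th polynomial numerical index on nonzero
real Banach spaces is the whole interval `[0, 1]`. -/
theorem result (k : ℕ) (hk : 2 ≤ k) : realRange.{u} k = Set.Icc 0 1 :=
  main k (by omega)

end Pool.Agent.Results.MP_046d9d_an.ARealRange
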